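import Pool.Agent.Helper53.WR.Defs
import Pool.Agent.Helper3.ThinCover
import Pool.Agent.Helper3.ThinRep

/-!
# FB-B3: sums inside a world, with a pointwise hypothesis
-/

set_option autoImplicit false

namespace Pool.Agent.Helper39.FB

open Finset
open Pool.Agent.Helper3.Thin
open Pool.Agent.Helper53.WR

/-- FB-B3 (sums inside a world, pointwise). -/
theorem world_self2 {q : ℕ} [Fact q.Prime] {Γ : Finset (ZMod q × ZMod q)} (hΓ : GoodSet Γ)
    (T : Finset ℕ) (S f : ℕ) (τ : ZMod q × ZMod q → ZMod q × ZMod q)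
    (σ : (ZMod q × ZMod q) × (ZMod q × ZMod q) → ℕ) (hσ : ∀ p, σ p < S) (n : ℕ)
    (hf : ∀ m, n / q ^ 4 ≤ m + 1028 + 4 * S → m ≤ n / q ^ 4 → repF T m ≤ f) :
    repF (World Γ T S τ σ) n ≤ 4096 ^ 2 * 2592 * f := by
  classical
  have hq : 0 < q := (Fact.out : q.Prime).pos
  have hq4 : 0 < q ^ 4 := by positivity
  set A : (ZMod q × ZMod q) × (ZMod q × ZMod q) → ℕ := fun p => und p.1 (p.2 + τ p.1) with hA
  have hAlt : ∀ p, A p < q ^ 4 := fun p => und_lt _ _
  have hAinj : ∀ p p', A p = A p' → p = p' := by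
    intro p p' h
    have h1 : dig q (A p) = p.1 := dig_und _ _
    have h2 : dig q (A p') = p'.1 := dig_und _ _
    have h3 : dig q (A p / q ^ 2) = p.2 + τ p.1 := dig_und_high _ _
    have h4 : dig q (A p' / q ^ 2) = p'.2 + τ p'.1 := dig_und_high _ _
    have e1 : p.1 = p'.1 := by rw [← h1, ← h2, h]
    have e2 : p.2 = p'.2 := by
      have : p.2 + τ p.1 = p'.2 + τ p'.1 := by rw [← h3, ← h4, h]
      rw [e1] at this
      exact add_right_cancel this
    exact Prod.ext e1 e2
  -- the index pairs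
  set J : Finset (((((ZMod q × ZMod q) × (ZMod q × ZMod q)) × Lab) × ℕ) ×
      ((((ZMod q × ZMod q) × (ZMod q × ZMod q)) × Lab) × ℕ)) :=
    (Ind Γ T ×ˢ Ind Γ T).filter (fun w =>
      elt S τ σ w.1.1.1 w.1.1.2 w.1.2 + elt S τ σ w.2.1.1 w.2.1.2 w.2.2 = n) with hJ
  have h1 : repF (World Γ T S τ σ) n ≤ J.card := by
    have : (((World Γ T S τ σ) ×ˢ (World Γ T S τ σ)).filter (fun p => p.1 + p.2 = n)) ⊆
        J.image (fun w => (elt S τ σ w.1.1.1 w.1.1.2 w.1.2, elt S τ σ w.2.1.1 w.2.1.2 w.2.2)) := by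
      rintro ⟨a, b⟩ hab
      rw [mem_filter, mem_product] at hab
      obtain ⟨⟨ha, hb⟩, hs⟩ := hab
      unfold World at ha hb
      rw [mem_image] at ha hb
      obtain ⟨x, hx, hxa⟩ := ha
      obtain ⟨y, hy, hyb⟩ := hb
      rw [mem_image]
      refine ⟨(x, y), ?_, ?_⟩
      · rw [hJ, mem_filter, mem_product]
        refine ⟨⟨hx, hy⟩, ?_⟩
        simp only
        simp only at hxa hyb hs
        rw [hxa, hyb, hs]
      · simp only
        simp only at hxa hyb
        rw [hxa, hyb]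
    exact (card_le_card this).trans card_image_le
  refine h1.trans ?_
  -- split by labels
  have h2 : J.card ≤ (2592 * f) * (J.image (fun w => (w.1.1.2, w.2.1.2))).card := by
    apply card_le_mul_card_image
    rintro ⟨ε, ε'⟩ _
    set J' := J.filter (fun w => (w.1.1.2, w.2.1.2) = (ε, ε')) with hJ'
    have hmem : ∀ w ∈ J', w.1.1.1 ∈ Γ ×ˢ Γ ∧ w.2.1.1 ∈ Γ ×ˢ Γ ∧ w.1.2 ∈ T ∧ w.2.2 ∈ T ∧
        w.1.1.2 = ε ∧ w.2.1.2 = ε' ∧
        (A w.1.1.1 + off q ε + q ^ 4 * (S + σ w.1.1.1 + w.1.2)) +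
        (A w.2.1.1 + off q ε' + q ^ 4 * (S + σ w.2.1.1 + w.2.2)) = n := by
      intro w hw
      rw [hJ', mem_filter, hJ, mem_filter, mem_product] at hw
      obtain ⟨⟨⟨hw1, hw2⟩, hs⟩, hl⟩ := hw
      unfold Ind at hw1 hw2
      rw [mem_product, mem_product] at hw1 hw2
      simp only [Prod.mk.injEq] at hl
      obtain ⟨hl1, hl2⟩ := hl
      refine ⟨hw1.1.1, hw2.1.1, hw1.2, hw2.2, hl1, hl2, ?_⟩
      unfold elt at hs
      rw [hl1, hl2] at hs
      exact hs
    have h3 : J'.card ≤ f * (J'.image (fun w => (A w.1.1.1, A w.2.1.1))).card := by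
      apply card_le_mul_card_image
      rintro ⟨a, a'⟩ haa
      rw [mem_image] at haa
      obtain ⟨w0, hw0, hwa⟩ := haa
      simp only [Prod.mk.injEq] at hwa
      obtain ⟨hwa1, hwa2⟩ := hwa
      have hb0 := (hmem w0 hw0).2.2.2.2.2.2
      have lo1 := hAlt w0.1.1.1
      have lo2 := hAlt w0.2.1.1
      have of1 := off_le q (Fact.out : q.Prime).two_le ε
      have of2 := off_le q (Fact.out : q.Prime).two_le ε'
      have si1 := hσ w0.1.1.1
      have si2 := hσ w0.2.1.1
      have hup : n / q ^ 4 ≤ w0.1.2 + w0.2.2 + 1028 + 4 * S := by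
        apply Nat.le_of_lt_succ
        rw [Nat.div_lt_iff_lt_mul hq4]
        have e1 : q ^ 4 * (S + σ w0.1.1.1 + w0.1.2) + q ^ 4 * (S + σ w0.2.1.1 + w0.2.2) ≤
            q ^ 4 * (4 * S + (w0.1.2 + w0.2.2)) := by
          rw [← mul_add]
          exact Nat.mul_le_mul_left _ (by omega)
        have e2 : (w0.1.2 + w0.2.2 + 1028 + 4 * S).succ * q ^ 4 =
            q ^ 4 * (4 * S + (w0.1.2 + w0.2.2)) + 1029 * q ^ 4 := by
          rw [Nat.succ_eq_add_one]
          ring
        rw [e2]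
        omega
      have hlo : w0.1.2 + w0.2.2 ≤ n / q ^ 4 := by
        rw [Nat.le_div_iff_mul_le hq4]
        have e1 : (w0.1.2 + w0.2.2) * q ^ 4 ≤
            q ^ 4 * (S + σ w0.1.1.1 + w0.1.2) + q ^ 4 * (S + σ w0.2.1.1 + w0.2.2) := by
          rw [← mul_add, mul_comm]
          exact Nat.mul_le_mul_left _ (by omega)
        omega
      refine le_trans ?_ (hf (w0.1.2 + w0.2.2) hup hlo)
      unfold repF
      apply card_le_card_of_injOn (fun w => (w.1.2, w.2.2))
      · intro w hw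
        rw [mem_coe, mem_filter] at hw
        obtain ⟨hw, hwe⟩ := hw
        simp only [Prod.mk.injEq] at hwe
        have hm := hmem w hw
        have hm0 := hmem w0 hw0
        rw [mem_coe, mem_filter, mem_product]
        refine ⟨⟨hm.2.2.1, hm.2.2.2.1⟩, ?_⟩
        have e1 : w.1.1.1 = w0.1.1.1 := hAinj _ _ (by rw [hwe.1, hwa1])
        have e2 : w.2.1.1 = w0.2.1.1 := hAinj _ _ (by rw [hwe.2, hwa2])
        have hn := hm.2.2.2.2.2.2
        have hn0 := hm0.2.2.2.2.2.2
        rw [e1, e2, ← hn0] at hn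
        simp only
        have h5 : q ^ 4 * (w.1.2 + w.2.2) = q ^ 4 * (w0.1.2 + w0.2.2) := by
          simp only [mul_add] at hn ⊢
          omega
        exact Nat.eq_of_mul_eq_mul_left hq4 h5
      · intro w hw w' hw' h
        rw [mem_coe, mem_filter] at hw hw'
        obtain ⟨hw, hwe⟩ := hw
        obtain ⟨hw', hwe'⟩ := hw'
        simp only [Prod.mk.injEq] at hwe hwe' h
        have hm := hmem w hw
        have hm' := hmem w' hw'
        have e1 : w.1.1.1 = w'.1.1.1 := hAinj _ _ (by rw [hwe.1, hwe'.1])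
        have e2 : w.2.1.1 = w'.2.1.1 := hAinj _ _ (by rw [hwe.2, hwe'.2])
        have e3 : w.1.1.2 = w'.1.1.2 := by rw [hm.2.2.2.2.1, hm'.2.2.2.2.1]
        have e4 : w.2.1.2 = w'.2.1.2 := by rw [hm.2.2.2.2.2.1, hm'.2.2.2.2.2.1]
        exact Prod.ext (Prod.ext (Prod.ext e1 e3) h.1) (Prod.ext (Prod.ext e2 e4) h.2)
    -- the pairs of low parts
    set s0 := (n - off q ε - off q ε') % q ^ 4 with hs0
    set P := J'.image (fun w => (A w.1.1.1, A w.2.1.1)) with hP
    have hPm : ∀ p ∈ P, (p.1 < q ^ 4 ∧ dig q p.1 ∈ Γ ∧ dig q (p.1 / q ^ 2) - τ (dig q p.1) ∈ Γ) ∧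
        (p.2 < q ^ 4 ∧ dig q p.2 ∈ Γ ∧ dig q (p.2 / q ^ 2) - τ (dig q p.2) ∈ Γ) ∧
        (p.1 + p.2 = s0 ∨ p.1 + p.2 = s0 + q ^ 4) := by
      intro p hp
      rw [hP, mem_image] at hp
      obtain ⟨w, hw, rfl⟩ := hp
      have hm := hmem w hw
      have hdig : ∀ p : (ZMod q × ZMod q) × (ZMod q × ZMod q), p ∈ Γ ×ˢ Γ →
          A p < q ^ 4 ∧ dig q (A p) ∈ Γ ∧ dig q (A p / q ^ 2) - τ (dig q (A p)) ∈ Γ := by
        intro p hp
        rw [mem_product] at hp
        have g1 : dig q (A p) = p.1 := dig_und _ _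
        have g2 : dig q (A p / q ^ 2) = p.2 + τ p.1 := dig_und_high _ _
        refine ⟨hAlt p, by rw [g1]; exact hp.1, ?_⟩
        rw [g1, g2, add_sub_cancel_right]
        exact hp.2
      refine ⟨hdig _ hm.1, hdig _ hm.2.1, ?_⟩
      simp only
      have hn := hm.2.2.2.2.2.2
      have l1 := hAlt w.1.1.1
      have l2 := hAlt w.2.1.1
      have h6 : n - off q ε - off q ε' = (A w.1.1.1 + A w.2.1.1) +
          q ^ 4 * ((S + σ w.1.1.1 + w.1.2) + (S + σ w.2.1.1 + w.2.2)) := by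
        rw [mul_add (q ^ 4) (S + σ w.1.1.1 + w.1.2)]
        omega
      have h7 : s0 = (A w.1.1.1 + A w.2.1.1) % q ^ 4 := by
        rw [hs0, h6, Nat.add_mul_mod_self_left]
      rw [h7]
      by_cases hlt : A w.1.1.1 + A w.2.1.1 < q ^ 4
      · left
        rw [Nat.mod_eq_of_lt hlt]
      · right
        rw [Nat.mod_eq_sub_mod (by omega), Nat.mod_eq_of_lt (by omega)]
        omega
    have h8 : P.card ≤ 2592 := by
      have hsub : P ⊆ P.filter (fun p => p.1 + p.2 = s0) ∪
          P.filter (fun p => p.1 + p.2 = s0 + q ^ 4) := by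
        intro p hp
        rw [mem_union, mem_filter, mem_filter]
        rcases (hPm p hp).2.2 with h | h
        · exact Or.inl ⟨hp, h⟩
        · exact Or.inr ⟨hp, h⟩
      have c1 : (P.filter (fun p => p.1 + p.2 = s0)).card ≤ 1296 := by
        apply same_scale hΓ τ s0
        · intro p hp
          exact (mem_filter.1 hp).2
        · intro p hp
          exact (hPm p (mem_filter.1 hp).1).1
        · intro p hp
          exact (hPm p (mem_filter.1 hp).1).2.1
      have c2 : (P.filter (fun p => p.1 + p.2 = s0 + q ^ 4)).card ≤ 1296 := by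
        apply same_scale hΓ τ (s0 + q ^ 4)
        · intro p hp
          exact (mem_filter.1 hp).2
        · intro p hp
          exact (hPm p (mem_filter.1 hp).1).1
        · intro p hp
          exact (hPm p (mem_filter.1 hp).1).2.1
      have := (card_le_card hsub).trans (card_union_le _ _)
      omega
    calc J'.card ≤ f * P.card := h3
      _ ≤ f * 2592 := Nat.mul_le_mul_left _ h8
      _ = 2592 * f := by ring
  have h9 : (J.image (fun w => (w.1.1.2, w.2.1.2))).card ≤ 4096 ^ 2 := by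
    have := card_le_card (subset_univ (J.image (fun w => (w.1.1.2, w.2.1.2))))
    rw [card_univ, Fintype.card_prod, card_Lab] at this
    norm_num at this ⊢
    exact this
  calc J.card ≤ (2592 * f) * (J.image (fun w => (w.1.1.2, w.2.1.2))).card := h2
    _ ≤ (2592 * f) * 4096 ^ 2 := Nat.mul_le_mul_left _ h9
    _ = 4096 ^ 2 * 2592 * f := by ring

end Pool.Agent.Helper39.FB
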